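import Mathlib

namespace Pool.Agent.Results.MP_12a8d1_co.Both

open Finset

section Ring
variable {R : Type*} [CommRing R]

/-- `(a; q)_n`. -/
def poch (a q : R) (n : ℕ) : R := ∏ k ∈ range n, (1 - a * q ^ k)

/-- Summand `(1/p; 1/q)_n` of the left side of (1). -/
noncomputable def left1 (p q : R) (n : ℕ) : R := poch (Ring.inverse p) (Ring.inverse q) n

/-- Summand `p q^n (p;q)_n (q;q)_n` of the left side of (2). -/
def left2 (p q : R) (n : ℕ) : R := p * q ^ n * poch p q n * poch q q n

/-- Summand `(p/q)^(n+1) (1/q; 1/q)_n` of the common right side. -/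
noncomputable def right (p q : R) (n : ℕ) : R :=
  (p * Ring.inverse q) ^ (n + 1) * poch (Ring.inverse q) (Ring.inverse q) n

end Ring

/-- `ℂ[[u, v]]`. -/
abbrev A := MvPowerSeries (Fin 2) ℂ

/-- `ℂ[p][[v]]`. -/
abbrev B := PowerSeries (Polynomial ℂ)

/-- Every monomial has a nonzero coefficient in only finitely many summands. -/
def ConvA (f : ℕ → A) : Prop :=
  ∀ d, (Function.support fun n => MvPowerSeries.coeff d (f n)).Finite

/-- The coefficientwise sum. -/
noncomputable def valA (f : ℕ → A) : A := fun d => ∑ᶠ n, MvPowerSeries.coeff d (f n)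

/-- Every power of `v` has a nonzero coefficient in only finitely many summands. -/
def ConvB (f : ℕ → B) : Prop :=
  ∀ d, (Function.support fun n => PowerSeries.coeff d (f n)).Finite

/-- The coefficientwise sum. -/
noncomputable def valB (f : ℕ → B) : B := PowerSeries.mk fun d => ∑ᶠ n, PowerSeries.coeff d (f n)

section Alg
variable {R : Type*} [CommRing R]

theorem poch_succ (a q : R) (n : ℕ) : poch a q (n + 1) = poch a q n * (1 - a * q ^ n) :=
  prod_range_succ _ _

theorem poch_succ' (s q : R) (n : ℕ) : poch s q (n + 1) = poch (s * q) q n * (1 - s) := by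
  unfold poch
  rw [prod_range_succ']
  simp only [pow_zero, mul_one, pow_succ', mul_assoc]

theorem idS (r s : R) (M : ℕ) :
    s * (1 + ∑ n ∈ range M, s ^ (n + 1) * poch r r n -
      ∑ n ∈ range M, (s * r) ^ (n + 1) * poch r r n) =
      ∑ n ∈ range M, s ^ (n + 1) * poch r r n + s ^ (M + 1) * poch r r M := by
  induction M with
  | zero => simp [poch]
  | succ M ih =>
    rw [sum_range_succ, sum_range_succ, poch_succ]
    linear_combination ih

theorem idG (q s : R) (M : ℕ) :
    (∑ n ∈ range M, left2 (s * q) q n) * (1 - s) + s * ∑ n ∈ range M, left2 s q n =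
      s * (1 - poch q q M * poch s q M) := by
  induction M with
  | zero => simp [poch]
  | succ M ih =>
    rw [sum_range_succ, sum_range_succ]
    have h := poch_succ' s q M
    rw [poch_succ] at h
    rw [poch_succ, poch_succ, left2, left2]
    linear_combination ih - s * q * q ^ M * poch q q M * h

theorem iter (p a q r : R) (hp : p * a = 1) (hq : q * r = 1) (M N : ℕ) :
    poch r r M ∣ ∑ n ∈ range M, (p * r) ^ (n + 1) * poch r r n - ∑ n ∈ range N, poch a r n -
      poch a r N * ∑ n ∈ range M, (p * q ^ N * r) ^ (n + 1) * poch r r n := by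
  induction N with
  | zero => simp [poch]
  | succ N ih =>
    obtain ⟨w, hw⟩ := ih
    have e : p * q ^ (N + 1) * r = p * q ^ N := by rw [pow_succ]; linear_combination p * q ^ N * hq
    have h1 : p * q ^ N * (a * r ^ N) = 1 := by
      have : q ^ N * r ^ N = 1 := by rw [← mul_pow, hq, one_pow]
      linear_combination q ^ N * r ^ N * hp + this
    have h2 := idS r (p * q ^ N) M
    rw [sum_range_succ (fun n => poch a r n), e, poch_succ]
    refine ⟨w - poch a r N * (a * r ^ N) * (p * q ^ N) ^ (M + 1), ?_⟩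
    generalize ∑ n ∈ range M, (p * q ^ N * r) ^ (n + 1) * poch r r n = U at *
    generalize ∑ n ∈ range M, (p * q ^ N) ^ (n + 1) * poch r r n = V at *
    generalize p * q ^ N = s at *
    generalize a * r ^ N = t at *
    linear_combination hw - poch a r N * t * h2 + poch a r N * (1 + V - U) * h1

theorem iter2 (p q r x : R) (hq : q * r = 1) (M : ℕ) (h1 : x ∣ poch q q M) (h2 : x ∣ poch r r M)
    (N : ℕ) : ∀ j : ℕ, ∃ y z, ∑ n ∈ range M, left2 (p * r ^ j) q n -
      ∑ n ∈ range M, (p * r ^ j * r) ^ (n + 1) * poch r r n = p ^ N * y + x * z := by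
  induction N with
  | zero => intro j; exact ⟨_, 0, by rw [pow_zero, one_mul, mul_zero, add_zero]⟩
  | succ N ih =>
    intro j
    obtain ⟨y, z, h⟩ := ih j
    obtain ⟨y', z', h'⟩ := ih (j + 1)
    obtain ⟨w1, hw1⟩ := h1
    obtain ⟨w2, hw2⟩ := h2
    have g1 := idG q (p * r ^ j * r) M
    have g2 := idS r (p * r ^ j * r) M
    have e : p * r ^ j * r * q = p * r ^ j := by linear_combination p * r ^ j * hq
    rw [e, hw1] at g1
    rw [hw2] at g2
    rw [show p * r ^ (j + 1) = p * r ^ j * r by ring] at h'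
    refine ⟨r ^ j * r * (y - y'), p * r ^ j * r * (z - z') -
      p * r ^ j * r * w1 * poch (p * r ^ j * r) q M + (p * r ^ j * r) ^ (M + 1) * w2, ?_⟩
    linear_combination g1 + g2 + p * r ^ j * r * h - p * r ^ j * r * h'

end Alg

theorem fin_sum {M : Type*} [AddCommMonoid M] (g : ℕ → M) (N : ℕ) (h : ∀ n, N ≤ n → g n = 0) :
    ∑ᶠ n, g n = ∑ n ∈ range N, g n := by
  apply finsum_eq_sum_of_support_subset
  intro n hn
  simp only [coe_range, Set.mem_Iio]
  by_contra hc
  exact hn (h n (not_lt.1 hc))

theorem evA (f : ℕ → A) (h : ConvA f) (d : Fin 2 →₀ ℕ) :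
    ∃ N, ∀ n, N ≤ n → ∀ G, MvPowerSeries.coeff d (f n * G) = 0 := by
  classical
  have : ∀ᶠ n in Filter.atTop, ∀ x ∈ antidiagonal d, MvPowerSeries.coeff x.1 (f n) = 0 := by
    rw [Filter.eventually_all_finset]
    intro x _
    rw [← Nat.cofinite_eq_atTop]
    exact (h x.1).eventually_cofinite_notMem.mono fun n hn => by simpa using hn
  obtain ⟨N, hN⟩ := Filter.eventually_atTop.1 this
  refine ⟨N, fun n hn G => ?_⟩
  rw [MvPowerSeries.coeff_mul]
  exact sum_eq_zero fun x hx => by rw [hN n hn x hx, zero_mul]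

theorem dvdB (y : B) (k : ℕ) (hk : 1 ≤ k) (hy : PowerSeries.constantCoeff y ^ k = 1) (K : ℕ) :
    ∀ n, k * K ≤ n → PowerSeries.X ^ K ∣ poch y y n := by
  induction K with
  | zero => intro n _; simp
  | succ K ih =>
    intro n hn
    obtain ⟨j, rfl⟩ := Nat.exists_eq_add_of_le hk
    have h1 : poch y y ((1 + j) * K + j + 1) ∣ poch y y n :=
      prod_dvd_prod_of_subset _ _ _ (range_subset_range.2 (by nlinarith))
    refine Dvd.dvd.trans ?_ h1
    rw [poch_succ, pow_succ]
    refine mul_dvd_mul (ih _ (by omega)) (PowerSeries.X_dvd_iff.2 ?_)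
    rw [← pow_succ', show (1 + j) * K + j + 1 = (1 + j) * (K + 1) by ring, map_sub, map_one,
      map_pow, pow_mul, hy, one_pow, sub_self]

theorem result :
    (∀ (p₀ q₀ : ℂ) (k : ℕ), 1 ≤ k → p₀ ^ k = 1 → q₀ ^ k = 1 →
      ∀ p q : A, p = MvPowerSeries.C p₀ + MvPowerSeries.X 0 →
        q = MvPowerSeries.C q₀ + MvPowerSeries.X 1 →
        ConvA (left1 p q) → ConvA (right p q) → valA (left1 p q) = valA (right p q)) ∧
    (∀ (q₀ : ℂ) (k : ℕ), 1 ≤ k → q₀ ^ k = 1 →
      ∀ p q : B, p = PowerSeries.C Polynomial.X →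
        q = PowerSeries.C (Polynomial.C q₀) + PowerSeries.X →
        ConvB (left2 p q) ∧ ConvB (right p q) ∧ valB (left2 p q) = valB (right p q)) := by
  constructor
  · intro p₀ q₀ k hk hp0 hq0 p q hp hq hL hR
    have up : IsUnit p := by
      rw [MvPowerSeries.isUnit_iff_constantCoeff, hp]
      simpa using (IsUnit.of_pow_eq_one hp0 (by omega)).ne_zero
    have uq : IsUnit q := by
      rw [MvPowerSeries.isUnit_iff_constantCoeff, hq]
      simpa using (IsUnit.of_pow_eq_one hq0 (by omega)).ne_zero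
    have ep := Ring.mul_inverse_cancel p up
    have eq := Ring.mul_inverse_cancel q uq
    funext d
    obtain ⟨N, hN⟩ := evA _ hL d
    obtain ⟨M, hM⟩ := evA _ hR d
    show ∑ᶠ n, MvPowerSeries.coeff d (left1 p q n) = ∑ᶠ n, MvPowerSeries.coeff d (right p q n)
    rw [fin_sum _ N fun n hn => by simpa using hN n hn 1,
      fin_sum _ M fun n hn => by simpa using hM n hn 1, ← map_sum, ← map_sum]
    obtain ⟨w, hw⟩ := iter p _ q _ ep eq M N
    have e1 : poch (Ring.inverse q) (Ring.inverse q) M * w =
        right p q M * ((Ring.inverse p * q) ^ (M + 1) * w) := by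
      have : (p * Ring.inverse q) ^ (M + 1) * (Ring.inverse p * q) ^ (M + 1) = 1 := by
        rw [← mul_pow, show p * Ring.inverse q * (Ring.inverse p * q) =
          (p * Ring.inverse p) * (q * Ring.inverse q) by ring, ep, eq, one_mul, one_pow]
      unfold right
      linear_combination (-poch (Ring.inverse q) (Ring.inverse q) M * w) * this
    have := congrArg (MvPowerSeries.coeff d) hw
    rw [e1, hM M le_rfl, map_sub, map_sub] at this
    have h3 := hN N le_rfl (∑ n ∈ range M, (p * q ^ N * Ring.inverse q) ^ (n + 1) *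
      poch (Ring.inverse q) (Ring.inverse q) n)
    unfold left1 at h3
    rw [h3, sub_zero, sub_eq_zero] at this
    exact this.symm
  · intro q₀ k hk hq0 p q hp hq
    have cq : PowerSeries.constantCoeff q ^ k = 1 := by
      rw [hq]; simp [← map_pow, hq0]
    have uq : IsUnit q := by
      rw [PowerSeries.isUnit_iff_constantCoeff]
      exact IsUnit.of_pow_eq_one cq (by omega)
    have eq := Ring.mul_inverse_cancel q uq
    have cr : PowerSeries.constantCoeff (Ring.inverse q) ^ k = 1 := by
      have := congrArg (fun t => PowerSeries.constantCoeff t ^ k) eq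
      simpa [mul_pow, cq] using this
    have zL : ∀ d n, k * (d + 1) ≤ n → PowerSeries.coeff d (left2 p q n) = 0 := fun d n hn =>
      PowerSeries.X_pow_dvd_iff.1 ((dvdB q k hk cq (d + 1) n hn).mul_left _) d (by omega)
    have zR : ∀ d n, k * (d + 1) ≤ n → PowerSeries.coeff d (right p q n) = 0 := fun d n hn =>
      PowerSeries.X_pow_dvd_iff.1 ((dvdB _ k hk cr (d + 1) n hn).mul_left _) d (by omega)
    refine ⟨fun d => (Set.finite_lt_nat (k * (d + 1))).subset fun n hn => ?_,
      fun d => (Set.finite_lt_nat (k * (d + 1))).subset fun n hn => ?_, ?_⟩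
    · by_contra hc; exact hn (zL d n (not_lt.1 hc))
    · by_contra hc; exact hn (zR d n (not_lt.1 hc))
    ext d m
    rw [valB, valB, PowerSeries.coeff_mk, PowerSeries.coeff_mk, fin_sum _ _ (zL d),
      fin_sum _ _ (zR d), ← map_sum, ← map_sum]
    obtain ⟨y, z, h⟩ := iter2 p q _ _ eq (k * (d + 1)) (dvdB q k hk cq (d + 1) _ le_rfl)
      (dvdB _ k hk cr (d + 1) _ le_rfl) (m + 1) 0
    simp only [pow_zero, mul_one] at h
    have h2 := congrArg (fun t => (PowerSeries.coeff d t).coeff m) h
    have h3 : PowerSeries.coeff d (PowerSeries.X ^ (d + 1) * z) = 0 :=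
      PowerSeries.X_pow_dvd_iff.1 (dvd_mul_right _ _) d (by omega)
    have h4 : (PowerSeries.coeff d (p ^ (m + 1) * y)).coeff m = 0 := by
      rw [hp, ← map_pow, PowerSeries.coeff_C_mul]
      exact Polynomial.X_pow_dvd_iff.1 (dvd_mul_right _ _) m (by omega)
    simp only [map_sub, map_add, Polynomial.coeff_sub, h3, add_zero, h4] at h2
    exact sub_eq_zero.1 h2

end Pool.Agent.Results.MP_12a8d1_co.Both
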